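import Pool.Agent.MWF.Stmts

set_option autoImplicit false

/-!
# MWF, row SPL: if `xyx` is not an isoterm, one of five identities holds
-/

namespace Pool.Agent.MWF.H1

open Pool.Agent.Helper14_MV Pool.Agent.Helper2_MV Pool.Agent.MWF

theorem shape (l : List ℕ) (h : ∀ c ∈ l, c = 0 ∨ c = 1) (h1 : l.count 1 = 1) :
    ∃ a b : ℕ, l = List.replicate a 0 ++ 1 :: List.replicate b 0 := by
  have hm : 1 ∈ l := by
    rw [← List.count_pos_iff]
    omega
  obtain ⟨s, t, rfl⟩ := List.append_of_mem hm
  rw [List.count_append, List.count_cons_self] at h1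
  have hs : s.count 1 = 0 := by omega
  have ht : t.count 1 = 0 := by omega
  have hs' : s = List.replicate s.length 0 := by
    rw [List.eq_replicate_iff]
    refine ⟨rfl, fun c hc => ?_⟩
    rcases h c (by simp [hc]) with h0 | h0
    · exact h0
    · subst h0
      exact absurd hc (List.count_eq_zero.1 hs)
  have ht' : t = List.replicate t.length 0 := by
    rw [List.eq_replicate_iff]
    refine ⟨rfl, fun c hc => ?_⟩
    rcases h c (by simp [hc]) with h0 | h0
    · exact h0
    · subst h0
      exact absurd hc (List.count_eq_zero.1 ht)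
  exact ⟨s.length, t.length, by rw [← hs', ← ht']⟩

theorem spl (hpow : PowStmt) (hctt : CttStmt) (hsim : SimStmt) : SplStmt := by
  intro β hap hiso
  unfold Iso3 at hiso
  push Not at hiso
  obtain ⟨l, hl, hne⟩ := hiso
  have hc := hctt β hap _ _ hl
  have hs := hsim β hap _ _ hl 1 (by decide)
  obtain ⟨a, b, rfl⟩ := shape l (fun c hcl => by
    have := (hc c).2 hcl
    simp only [List.mem_cons, List.not_mem_nil, or_false] at this
    omega) hs
  have hfil : RR β [0, 0] (List.replicate (a + b) 0) := by
    have h2 := RR.filter (fun d => d = 0) hl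
    have e1 : List.filter (fun d => decide (d = 0)) [0, 1, 0] = [0, 0] := by decide
    have e2 : List.filter (fun d : ℕ => decide (d = 0))
        (List.replicate a 0 ++ 1 :: List.replicate b 0) = List.replicate (a + b) 0 := by
      rw [List.filter_append, List.filter_cons]
      simp [List.filter_replicate, List.replicate_append_replicate]
    rw [e1, e2] at h2
    exact h2
  have hab : 2 ≤ a + b := by
    by_contra hlt
    have h3 : a + b = 0 ∨ a + b = 1 := by omega
    rcases h3 with h3 | h3
    · rw [h3] at hfil
      have := (hctt β hap _ _ hfil 0).1 (by simp)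
      simp at this
    · rw [h3] at hfil
      exact hap.ncr (RR.symm hfil)
  have hne' : ¬ (a = 1 ∧ b = 1) := by
    rintro ⟨rfl, rfl⟩
    exact hne rfl
  have key : ∀ k, 2 ≤ k → RR β (List.replicate k 0) [0, 0] := fun k hk =>
    hpow β hap.sq 0 k 2 hk le_rfl
  have tr : ∀ {x y z : List ℕ}, RR β x y → RR β y z → RR β x z := fun h1 h2 => β.trans h1 h2
  have hmid : RR β [1] [1] := RR.refl [1]
  by_cases ha0 : a = 0
  · subst ha0
    right; left
    have h4 : RR β ([1] ++ List.replicate b 0) ([1] ++ [0, 0]) :=
      RR.append hmid (key b (by omega))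
    exact tr hl h4
  by_cases hb0 : b = 0
  · subst hb0
    left
    have h4 : RR β (List.replicate a 0 ++ [1]) ([0, 0] ++ [1]) :=
      RR.append (key a (by omega)) hmid
    exact tr hl h4
  by_cases ha1 : a = 1
  · subst ha1
    right; right; left
    have h4 : RR β ([0, 1] ++ List.replicate b 0) ([0, 1] ++ [0, 0]) :=
      RR.append (RR.refl [0, 1]) (key b (by omega))
    exact tr hl h4
  by_cases hb1 : b = 1
  · subst hb1
    right; right; right; left
    have h4 : RR β (List.replicate a 0 ++ [1, 0]) ([0, 0] ++ [1, 0]) :=
      RR.append (key a (by omega)) (RR.refl [1, 0])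
    exact tr hl h4
  right; right; right; right
  have h4 : RR β (List.replicate a 0 ++ ([1] ++ List.replicate b 0)) ([0, 0] ++ ([1] ++ [0, 0])) :=
    RR.append (key a (by omega)) (RR.append hmid (key b (by omega)))
  exact tr hl h4

end Pool.Agent.MWF.H1
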